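import Pool.Agent.Q2.WA.Main

/-!
# Primitive ideals of `U(W)` and `U(Vir)` which are not kernels of maps to `Ã_k`

The algebras `Weyl k n = A_n` and `LocWeyl k = k[t, t⁻¹, ∂]` are defined by generators and
relations in `Pool.Agent.Q2.WA.Defs`. The Witt algebra `W = k[t, t⁻¹]∂` is the Lie algebra of
derivations of the Laurent polynomial ring.
-/

namespace Pool.Agent.Results.MP_4da284_al.TwoPointIdeals

open TensorProduct Q2.WA

universe u

/-- The Witt algebra `W = k[t, t⁻¹]∂`, the Lie algebra of derivations of `k[t, t⁻¹]`. -/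
abbrev W (k : Type u) [Field k] : Type u :=
  Derivation k (LaurentPolynomial k) (LaurentPolynomial k)

section

attribute [local instance 100] LieRing.ofAssociativeRing

/-- The homomorphism `U(g) → U(W)` of enveloping algebras induced by a homomorphism `g → W`. -/
noncomputable def envMap {k g : Type u} [Field k] [LieRing g] [LieAlgebra k g]
    (π : g →ₗ⁅k⁆ W k) : UniversalEnvelopingAlgebra k g →ₐ[k] UniversalEnvelopingAlgebra k (W k) :=
  UniversalEnvelopingAlgebra.lift k ((UniversalEnvelopingAlgebra.ι k).comp π)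

end

/-- `Q` is a primitive ideal of the ring `R`: the annihilator of a simple left `R`-module. -/
def IsPrimitive {R : Type u} [Ring R] (Q : Ideal R) : Prop :=
  ∃ (M : Type u) (_ : AddCommGroup M) (_ : Module R M),
    IsSimpleModule R M ∧ Module.annihilator R M = Q

/-- Let `k` be any field of characteristic zero and let `g` be a Lie algebra with a surjective
homomorphism `π : g → W` (for example `g = W`, `π = id`, or `g = Vir`, `π(z) = 0`). There is a
primitive ideal `Q` of `U(g)`, strictly larger than the kernel of `U(g) → U(W)` (so `Q ≠ 0` for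
`g = W`), which is not the kernel of any algebra map from `U(g)` to any of the algebras
`Ã_{n+1} = k[t, t⁻¹, ∂] ⊗ A_n`, `n ≥ 0`. -/
theorem result (k : Type u) [Field k] [CharZero k] (g : Type u) [LieRing g] [LieAlgebra k g]
    (π : g →ₗ⁅k⁆ W k) (hπ : Function.Surjective π) :
    ∃ Q : Ideal (UniversalEnvelopingAlgebra k g),
      IsPrimitive Q ∧ (∀ r, envMap π r = 0 → r ∈ Q) ∧ (∃ r ∈ Q, envMap π r ≠ 0) ∧
      ∀ (n : ℕ) (φ : UniversalEnvelopingAlgebra k g →ₐ[k] LocWeyl k ⊗[k] Weyl k n),
        RingHom.ker φ ≠ Q := by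
  obtain ⟨M, i1, i2, h1, h2, h3⟩ := main (k := k) hπ
  refine ⟨_, ⟨M, i1, i2, h1, rfl⟩, ?_, ?_, h3⟩
  · intro r hr
    exact h2.le hr
  · obtain ⟨r, hr, hr'⟩ := Set.exists_of_ssubset h2
    exact ⟨r, hr, hr'⟩

end Pool.Agent.Results.MP_4da284_al.TwoPointIdeals
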